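import Mathlib
import Pool.Agent.H.MP_8a2df8_gt.A

set_option autoImplicit false

open Set Filter Topology TopologicalSpace
open Cardinal hiding univ
open Pool.Agent.H.MP_8a2df8_gt

namespace Pool.Agent.H.MP_ba0d78_gt

lemma exists_mad : ∃ M : Set (Set ℕ), M.Infinite ∧ (∀ A ∈ M, A.Infinite) ∧
    (∀ A ∈ M, ∀ B ∈ M, A ≠ B → (A ∩ B).Finite) ∧
    ∀ B : Set ℕ, B.Infinite → ∃ A ∈ M, (A ∩ B).Infinite := by
  let c : ℕ → Set ℕ := fun k => range (Nat.pair k)
  have hc : ∀ k l, k ≠ l → c k ∩ c l = ∅ := fun k l h => eq_empty_of_forall_notMem fun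
    _ ⟨⟨a, ha⟩, ⟨b, hb⟩⟩ => h (Nat.pair_eq_pair.1 (ha.trans hb.symm)).1
  have hinf : ∀ k, (c k).Infinite := fun k =>
    infinite_range_of_injective fun a b h => (Nat.pair_eq_pair.1 h).2
  obtain ⟨M, hcM, hM⟩ := zorn_subset_nonempty
    {M : Set (Set ℕ) | (∀ A ∈ M, A.Infinite) ∧ ∀ A ∈ M, ∀ B ∈ M, A ≠ B → (A ∩ B).Finite} (by
      intro ch hch hchain _
      refine ⟨⋃₀ ch, ⟨fun A ⟨m, hm, hA⟩ => (hch hm).1 A hA, ?_⟩, fun s hs => subset_sUnion_of_mem hs⟩
      rintro A ⟨m, hm, hA⟩ B ⟨m', hm', hB⟩ hne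
      rcases hchain.total hm hm' with h | h
      · exact (hch hm').2 A (h hA) B hB hne
      · exact (hch hm).2 A hA B (h hB) hne) (range c) ⟨by
      rintro _ ⟨k, rfl⟩; exact hinf k, by
      rintro _ ⟨k, rfl⟩ _ ⟨l, rfl⟩ h
      rw [hc k l fun e => h (e ▸ rfl)]
      exact finite_empty⟩
  refine ⟨M, (infinite_range_of_injective fun k l h => ?_).mono hcM, hM.1.1, hM.1.2,
    fun B hB => ?_⟩
  · by_contra hne
    have := hc k l hne
    rw [h, inter_self] at this
    exact (hinf l).nonempty.ne_empty this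
  · by_contra hcon
    push Not at hcon
    have : B ∈ M := hM.2 (y := insert B M) ⟨by
      rintro A (rfl | hA)
      · exact hB
      · exact hM.1.1 A hA, by
      rintro A (rfl | hA) A' (rfl | hA') hne
      · exact absurd rfl hne
      · exact inter_comm _ _ ▸ hcon A' hA'
      · exact hcon A hA
      · exact hM.1.2 A hA A' hA' hne⟩ (subset_insert _ _) (mem_insert _ _)
    have h := hcon B this
    rw [inter_self] at h
    exact hB h

lemma sep_pi (V : Type) (h : #V ≤ continuum) : SeparableSpace (V → ℝ) := by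
  classical
  obtain ⟨j⟩ : Nonempty (V ↪ ℝ) := (le_def _ _).1 (by rwa [mk_real])
  have hc : Continuous fun (f : C(ℝ, ℝ)) (a : V) => f (j a) :=
    continuous_pi fun a => continuous_eval_const _
  refine DenseRange.separableSpace (f := fun (f : C(ℝ, ℝ)) (a : V) => f (j a)) ?_ hc
  refine dense_iff_inter_open.2 fun U hU ⟨g, hg⟩ => ?_
  obtain ⟨I, u, hu, hIU⟩ := isOpen_pi_iff.1 hU g hg
  refine ⟨_, hIU fun a ha => ?_, ⟨⟨fun x => (Lagrange.interpolate I j g).eval x,
    Polynomial.continuous _⟩, rfl⟩⟩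
  show (Lagrange.interpolate I j g).eval (j a) ∈ u a
  rw [Lagrange.eval_interpolate_at_node g j.injective.injOn ha]
  exact (hu a ha).2

lemma open_factor {V : Type} [SeparableSpace (V → ℝ)] {O : Set (V → ℝ)} (hO : IsOpen O) :
    ∃ C : Set V, C.Countable ∧ ∀ x ∈ O, ∀ y : ℕ → V → ℝ, (∀ i ∈ C, ∀ᶠ m in atTop, y m i = x i) →
      ∀ᶠ m in atTop, y m ∈ closure O := by
  classical
  obtain ⟨D, hD, hd⟩ := exists_countable_dense (V → ℝ)
  choose! I u hu hIu using isOpen_pi_iff.1 hO
  let C : Set V := ⋃ d ∈ D, (I d : Set V)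
  refine ⟨C, hD.biUnion fun d _ => (I d).countable_toSet, fun x hx y hy => ?_⟩
  have h1 : Tendsto (fun m => C.piecewise (y m) x) atTop (𝓝 x) := by
    refine tendsto_pi_nhds.2 fun i => tendsto_const_nhds.congr' ?_
    by_cases hi : i ∈ C
    · filter_upwards [hy i hi] with m hm
      rw [piecewise_eq_of_mem _ _ _ hi, hm]
    · exact Eventually.of_forall fun m => (piecewise_eq_of_notMem _ _ _ hi).symm
  filter_upwards [h1.eventually (hO.mem_nhds hx)] with m hm
  have hc : Continuous fun w : V → ℝ => C.piecewise w (y m) := continuous_pi fun i => by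
    by_cases hi : i ∈ C
    · simp only [piecewise_eq_of_mem _ _ _ hi]; exact continuous_apply i
    · simp only [piecewise_eq_of_notMem _ _ _ hi]; exact continuous_const
  have := map_mem_closure hc (hd.open_subset_closure_inter hO hm) (t := O) (fun d hd' =>
    hIu d hd'.1 fun i hi => by
      rw [piecewise_eq_of_mem _ _ _ (mem_biUnion hd'.2 hi)]
      exact (hu d hd'.1 i hi).2)
  have e : C.piecewise (C.piecewise (y m) x) (y m) = y m := funext fun i => by
    by_cases hi : i ∈ C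
    · rw [piecewise_eq_of_mem _ _ _ hi, piecewise_eq_of_mem _ _ _ hi]
    · rw [piecewise_eq_of_notMem _ _ _ hi]
  exact e ▸ this

lemma seq_of_closure {Z Y : Type} {φ : Z → Y → ℝ} {A : Set Z} {g : Y → ℝ}
    {T : Set Y} (hT : T.Countable) (hg : g ∈ closure (φ '' A)) :
    ∃ a : ℕ → Z, (∀ n, a n ∈ A) ∧ ∀ t ∈ T, Tendsto (fun n => φ (a n) t) atTop (𝓝 (g t)) := by
  haveI := hT.to_subtype
  have : (fun t : T => g t.1) ∈ closure ((fun (f : Z) (t : T) => φ f t.1) '' A) :=
    map_mem_closure (f := fun (f : Y → ℝ) (t : T) => f t.1)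
      (continuous_pi fun t => continuous_apply _) hg (by
        rintro _ ⟨f, hf, rfl⟩
        exact ⟨f, hf, rfl⟩)
  obtain ⟨u, hu, hu'⟩ := mem_closure_iff_seq_limit.1 this
  choose a ha ha' using hu
  refine ⟨a, ha, fun t ht => (tendsto_pi_nhds.1 hu' ⟨t, ht⟩).congr fun n => ?_⟩
  rw [← ha']

variable (M : Set (Set ℕ))

def P : Type := (M →₀ ℚ) × (ℕ →₀ ℚ)

open Classical in
noncomputable def s (n : ℕ) : (M →₀ ℚ) →ₗ[ℚ] ℚ :=
  Finsupp.linearCombination ℚ fun A : M => if n ∈ A.1 then 1 else 0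

noncomputable def ι (p : P M) : ℕ ⊕ M → ℝ :=
  Sum.elim (fun n => ((p.2 n + s M n p.1 : ℚ) : ℝ)) fun A => ((p.1 A : ℚ) : ℝ)

noncomputable instance : TopologicalSpace (P M) := induced (ι M) inferInstance

lemma ind : IsInducing (ι M) := ⟨rfl⟩

instance : SeparableSpace (ℕ ⊕ M → ℝ) := sep_pi _ (by
  rw [mk_sum, lift_id, lift_id]
  refine add_le_of_le aleph0_le_continuum (mk_le_aleph0.trans aleph0_le_continuum) ?_
  refine (mk_set_le M).trans ?_
  rw [mk_set, mk_nat, two_power_aleph0])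

lemma dense : DenseRange (ι M) := by
  classical
  refine dense_iff_inter_open.2 fun U hU ⟨g, hg⟩ => ?_
  obtain ⟨I, u, hu, hIU⟩ := isOpen_pi_iff.1 hU g hg
  have : ∀ i ∈ I, ∃ r : ℚ, (r : ℝ) ∈ u i := fun i hi =>
    Rat.denseRange_cast.exists_mem_open (hu i hi).1 ⟨_, (hu i hi).2⟩
  choose! r hr using this
  let a : M →₀ ℚ := Finsupp.onFinset I.toRight (fun A => if Sum.inr A ∈ I then r (Sum.inr A) else 0)
    fun A h => by
      by_contra h'
      exact h (if_neg (by simpa using h'))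
  let b : ℕ →₀ ℚ := Finsupp.onFinset I.toLeft
    (fun n => if Sum.inl n ∈ I then r (Sum.inl n) - s M n a else 0) fun A h => by
      by_contra h'
      exact h (if_neg (by simpa using h'))
  refine ⟨_, hIU ?_, ⟨(a, b), rfl⟩⟩
  rintro (n | A) hi
  · have hi' : Sum.inl n ∈ I := hi
    simpa [ι, b, hi'] using hr _ hi
  · have hi' : Sum.inr A ∈ I := hi
    simpa [ι, a, hi'] using hr _ hi

def PB (B : Set M) : Set (P M) := {p | ∀ A, p.1 A ≠ 0 → A ∈ B}

lemma PB_count {B : Set M} (hB : B.Countable) : (PB M B).Countable := by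
  haveI := hB.to_subtype
  refine (countable_range fun q : (B →₀ ℚ) × (ℕ →₀ ℚ) =>
    ((q.1.embDomain (Function.Embedding.subtype _), q.2) : P M)).mono fun p hp => ?_
  refine ⟨(p.1.subtypeDomain _, p.2), Prod.ext ?_ rfl⟩
  ext A
  by_cases h : A ∈ B
  · exact Finsupp.embDomain_apply_self (Function.Embedding.subtype _) _ ⟨A, h⟩
  · rw [Finsupp.embDomain_notin_range _ _ _ (by simpa using h)]
    by_contra h'
    exact h (hp A (Ne.symm h'))

lemma approx (p : P M) (B : Set M) : ∃ q : ℕ → P M, (∀ m A, (q m).1 A ≠ 0 → A ∈ B ∧ p.1 A ≠ 0) ∧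
    (∀ n, ∀ᶠ m in atTop, ι M (q m) (Sum.inl n) = ι M p (Sum.inl n)) ∧
    ∀ m, ∀ A ∈ B, ι M (q m) (Sum.inr A) = ι M p (Sum.inr A) := by
  classical
  let a := p.1.filter (· ∈ B)
  refine ⟨fun m => (a, p.2 + Finsupp.onFinset (Finset.range m)
    (fun n => if n < m then s M n (p.1 - a) else 0) fun n h => by
      by_contra h'
      exact h (if_neg (by simpa using h'))), fun m A h => ?_, fun n => ?_, fun m A hA => ?_⟩
  · simpa [a, Finsupp.filter_apply] using h
  · filter_upwards [eventually_gt_atTop n] with m hm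
    simp [ι, hm]
    ring
  · simp [ι, a, hA]

lemma factor (f : P M → ℝ) (hf : Continuous f) : ∃ B : Set M, B.Countable ∧ ∀ (p : P M)
    (q : ℕ → P M), (∀ n, ∀ᶠ m in atTop, ι M (q m) (Sum.inl n) = ι M p (Sum.inl n)) →
    (∀ m, ∀ A ∈ B, ι M (q m) (Sum.inr A) = ι M p (Sum.inr A)) →
      Tendsto (fun m => f (q m)) atTop (𝓝 (f p)) := by
  have key : ∀ O : Set ℝ, IsOpen O → ∃ B : Set M, B.Countable ∧ ∀ (p : P M)
    (q : ℕ → P M), (∀ n, ∀ᶠ m in atTop, ι M (q m) (Sum.inl n) = ι M p (Sum.inl n)) →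
    (∀ m, ∀ A ∈ B, ι M (q m) (Sum.inr A) = ι M p (Sum.inr A)) → f p ∈ O →
      ∀ᶠ m in atTop, f (q m) ∈ closure O := by
    intro O hO
    obtain ⟨O', hO', he⟩ := (ind M).isOpen_iff.1 (hO.preimage hf)
    obtain ⟨C, hC, hC'⟩ := open_factor hO'
    refine ⟨Sum.inr ⁻¹' C, hC.preimage Sum.inr_injective, fun p q h1 h2 hp => ?_⟩
    have hp' : p ∈ ι M ⁻¹' O' := by rw [he]; exact hp
    filter_upwards [hC' _ hp' (fun m => ι M (q m)) (by
      rintro (n | A) hi
      · exact h1 n
      · exact Eventually.of_forall fun m => h2 m A hi)] with m hm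
    refine hf.closure_preimage_subset _ ?_
    rw [← he, (ind M).closure_eq_preimage_closure_image, image_preimage_eq_inter_range]
    exact closure_minimal ((dense M).open_subset_closure_inter hO') isClosed_closure hm
  choose B1 h1 h1' using fun r : ℚ => key (Iio (r : ℝ)) isOpen_Iio
  choose B2 h2 h2' using fun r : ℚ => key (Ioi (r : ℝ)) isOpen_Ioi
  refine ⟨⋃ r, B1 r ∪ B2 r, countable_iUnion fun r => (h1 r).union (h2 r), fun p q a b =>
    tendsto_order.2 ⟨fun c hc => ?_, fun c hc => ?_⟩⟩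
  · obtain ⟨r, h3, h4⟩ := exists_rat_btwn hc
    filter_upwards [h2' r p q a (fun m A hA => b m A (mem_iUnion.2 ⟨r, Or.inr hA⟩)) h4] with m hm
    rw [closure_Ioi] at hm
    exact h3.trans_le hm
  · obtain ⟨r, h3, h4⟩ := exists_rat_btwn hc
    filter_upwards [h1' r p q a (fun m A hA => b m A (mem_iUnion.2 ⟨r, Or.inl hA⟩)) h3] with m hm
    rw [closure_Iio] at hm
    exact lt_of_le_of_lt hm h4

lemma tight {E : Set (P M)} {p : P M} (hp : p ∈ closure E) :
    ∃ E0 ⊆ E, E0.Countable ∧ p ∈ closure E0 := by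
  rw [(ind M).closure_eq_preimage_closure_image] at hp
  have : ∀ B : Set M, B.Countable → ∃ a : ℕ → P M, (∀ n, a n ∈ E) ∧
      ∀ t ∈ range Sum.inl ∪ Sum.inr '' B, Tendsto (fun n => ι M (a n) t) atTop (𝓝 (ι M p t)) :=
    fun B hB => seq_of_closure ((countable_range _).union (hB.image _)) hp
  have hne : Nonempty (P M) := ⟨p⟩
  choose! a ha ha' using this
  let B : ℕ → Set M := fun k => Nat.rec (p.1.support : Set M)
    (fun _ B => B ∪ ⋃ n, ((a B n).1.support : Set M)) k
  have hB : ∀ k, (B k).Countable := by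
    intro k
    induction k with
    | zero => exact p.1.support.countable_toSet
    | succ k ih => exact ih.union (countable_iUnion fun n => Finset.countable_toSet _)
  have hm : Monotone B := monotone_nat_of_le_succ fun k => subset_union_left
  refine ⟨⋃ k, range (a (B k)), iUnion_subset fun k => range_subset_iff.2 (ha _ (hB k)),
    countable_iUnion fun k => countable_range _, ?_⟩
  haveI := bind_neBot (l := fun k => map (a (B k)) atTop) fun k => inferInstance
  refine mem_closure_of_tendsto (f := id) (b := Filter.bind atTop fun k => map (a (B k)) atTop)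
    ((ind M).tendsto_nhds_iff.2 (tendsto_pi_nhds.2 fun t => bind_tendsto ?_))
    (mem_bind'.2 (univ_mem' fun k => (mem_map (m := a (B k))).2 (univ_mem' fun n =>
      mem_iUnion.2 ⟨k, n, rfl⟩)))
  rcases t with n | A
  · exact Eventually.of_forall fun k => ha' _ (hB k) _ (Or.inl ⟨n, rfl⟩)
  · rcases em (∃ k, A ∈ B k) with ⟨k, hk⟩ | h
    · filter_upwards [eventually_ge_atTop k] with l hl
      exact ha' _ (hB l) _ (Or.inr ⟨A, hm hl hk, rfl⟩)
    · push Not at h
      refine Eventually.of_forall fun k => tendsto_map'_iff.2 (tendsto_const_nhds.congr fun n => ?_)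
      have h1 : p.1 A = 0 := by simpa [B] using h 0
      have h2 : (a (B k) n).1 A = 0 := by
        by_contra h'
        exact h (k + 1) (Or.inr (mem_iUnion.2 ⟨n, by simpa using h'⟩))
      simp [ι, h1, h2]

def X : Set (ℕ ⊕ M → ℝ) := {u | u ∈ range (ι M) ∨ u = 1}

noncomputable def j (p : P M) : X M := ⟨ι M p, Or.inl ⟨p, rfl⟩⟩
def one : X M := ⟨1, Or.inr rfl⟩

lemma j_cont : Continuous (j M) := (ind M).continuous.subtype_mk _

theorem iso (S : Set (Cp (X M)))
    (hS : ∀ u : ℕ → Cp (X M), (∀ n, u n ∈ S) → ∃ z ∈ S, MapClusterPt z atTop u) : IsCompact S := by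
  have hA : ∀ a : ℕ → S, (∀ n, a n ∈ univ) → ∃ z, MapClusterPt z atTop a := fun a _ => by
    obtain ⟨z, hz, hz'⟩ := hS (fun n => (a n).1) fun n => (a n).2
    exact ⟨⟨z, hz⟩, IsInducing.subtypeVal.mapClusterPt_iff.1 hz'⟩
  rw [isCompact_iff_isCompact_univ, ← closure_univ]
  refine finish hA fun g hg => ?_
  have cev : ∀ p, Continuous fun f : S => f.1.1 p := fun p =>
    (continuous_apply p).comp (continuous_subtype_val.comp continuous_subtype_val)
  have key : ∀ T : Set (X M), T.Countable → ∃ h : S, ∀ t ∈ T, h.1.1 t = g t := fun T hT => by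
    obtain ⟨a, -, ha⟩ := seq_of_closure hT hg
    obtain ⟨z, hz⟩ := hA a fun _ => trivial
    exact ⟨z, fun t ht => eq_of_nhds_neBot
      ((hz.continuousAt_comp (cev t).continuousAt).clusterPt.mono (ha t ht))⟩
  have hgc : Continuous (g ∘ j M) := by
    refine continuous_iff_isClosed.2 fun F hF => closure_subset_iff_isClosed.1 fun p hp => ?_
    obtain ⟨E, hE, hc, hp'⟩ := tight M hp
    obtain ⟨h, hh⟩ := key (j M '' insert p E) ((hc.insert p).image _)
    have := map_mem_closure (h.1.2.comp (j_cont M)) hp' (t := F) fun q hq => by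
      rw [Function.comp, hh _ ⟨q, Or.inr hq, rfl⟩]
      exact hE hq
    rwa [hF.closure_eq, Function.comp, hh _ ⟨p, Or.inl rfl, rfl⟩] at this
  obtain ⟨B0, hB0, hB0'⟩ := factor M _ hgc
  choose φ hφ hφ' using fun h : S => factor M _ (h.1.2.comp (j_cont M))
  obtain ⟨h0, -⟩ := key ∅ countable_empty
  haveI : Nonempty S := ⟨h0⟩
  choose! h hh using fun (B : Set M) (hB : B.Countable) =>
    key (insert (one M) (j M '' PB M B)) (((PB_count M hB).image _).insert _)
  let B : ℕ → Set M := fun k => Nat.rec B0 (fun _ B => B ∪ φ (h B)) k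
  have hB : ∀ k, (B k).Countable := by
    intro k
    induction k with
    | zero => exact hB0
    | succ k ih => exact ih.union (hφ _)
  have hm : Monotone B := monotone_nat_of_le_succ fun k => subset_union_left
  obtain ⟨z, hz⟩ := hA (fun k => h (B k)) fun _ => trivial
  refine ⟨z, funext fun t => eq_of_nhds_neBot
    ((hz.continuousAt_comp (cev t).continuousAt).clusterPt.mono (tendsto_const_nhds.congr' ?_))⟩
  obtain ⟨_, ⟨p, rfl⟩ | rfl⟩ := t
  · obtain ⟨q, q1, q2, q3⟩ := approx M p (⋃ k, B k)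
    have : ∀ᶠ k in atTop, ∀ A ∈ (p.1.support : Set M), A ∈ ⋃ k, B k → A ∈ B k := by
      refine (eventually_all_finite p.1.support.finite_toSet).2 fun A _ => ?_
      by_cases hA : A ∈ ⋃ k, B k
      · obtain ⟨k, hk⟩ := mem_iUnion.1 hA
        filter_upwards [eventually_ge_atTop k] with l hl _ using hm hl hk
      · exact Eventually.of_forall fun _ h => absurd h hA
    filter_upwards [this] with k hk
    have e1 := hB0' p q q2 fun m A hA => q3 m A (mem_iUnion.2 ⟨0, hA⟩)
    have e2 := hφ' (h (B k)) p q q2 fun m A hA => q3 m A (mem_iUnion.2 ⟨k + 1, Or.inr hA⟩)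
    exact tendsto_nhds_unique e1 (e2.congr fun m => hh _ (hB k) _ (Or.inr ⟨q m, fun A hA =>
      hk A (by simpa using (q1 m A hA).2) (q1 m A hA).1, rfl⟩))
  · exact Eventually.of_forall fun k => (hh _ (hB k) _ (Or.inl rfl)).symm

def δ (i : ℕ ⊕ M) : Cp (X M) := ⟨fun u => u.1 i, (continuous_apply i).comp continuous_subtype_val⟩

variable {M}

lemma δ_tendsto (hM : ∀ A ∈ M, ∀ B ∈ M, A ≠ B → (A ∩ B).Finite) (A : M) :
    Tendsto (fun n => δ M (Sum.inl n)) (cofinite ⊓ 𝓟 A.1) (𝓝 (δ M (Sum.inr A))) := by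
  classical
  refine tendsto_subtype_rng.2 (tendsto_pi_nhds.2 fun t => tendsto_const_nhds.congr' ?_)
  obtain ⟨_, ⟨p, rfl⟩ | rfl⟩ := t
  · have h1 : ∀ᶠ n in cofinite, ∀ B ∈ (p.1.support : Set M), B ≠ A → n ∈ A.1 → n ∉ B.1 := by
      refine (eventually_all_finite p.1.support.finite_toSet).2 fun B _ => ?_
      by_cases h : B = A
      · exact Eventually.of_forall fun _ h' => absurd h h'
      · filter_upwards [(hM _ A.2 _ B.2 fun e => h (Subtype.ext e.symm)).compl_mem_cofinite]
          with n hn _ h1 h2 using hn ⟨h1, h2⟩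
    filter_upwards [mem_inf_of_left h1, mem_inf_of_left p.2.support.eventually_cofinite_notMem,
      mem_inf_of_right (mem_principal_self A.1)] with n h2 h3 h4
    have h5 : s M n p.1 = p.1 A := by
      rw [s, Finsupp.linearCombination_apply, Finsupp.sum, Finset.sum_eq_single A]
      · simp [h4]
      · intro B hB hne
        simp [h2 B hB hne h4]
      · intro h
        simp [Finsupp.notMem_support_iff.1 h]
    simp [δ, ι, h5, Finsupp.notMem_support_iff.1 h3]
  · exact Eventually.of_forall fun _ => rfl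

theorem not_g (h1 : M.Infinite) (h2 : ∀ A ∈ M, A.Infinite)
    (hM : ∀ A ∈ M, ∀ B ∈ M, A ≠ B → (A ∩ B).Finite)
    (h3 : ∀ B : Set ℕ, B.Infinite → ∃ A ∈ M, (A ∩ B).Infinite) :
    ¬ ∀ A : Set (Cp (X M)), (∀ u : ℕ → Cp (X M), (∀ n, u n ∈ A) →
      ∃ z, MapClusterPt z atTop u) → IsCompact (closure A) := by
  intro h
  have hK := h (range fun n => δ M (Sum.inl n)) (by
    intro u hu
    choose n hn using hu
    by_cases hf : (range n).Finite
    · obtain ⟨z, -, hz⟩ := (hf.image fun n => δ M (Sum.inl n)).isCompact.exists_mapClusterPt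
        (f := atTop) (u := u) (tendsto_principal.2 (Eventually.of_forall fun k =>
          ⟨n k, ⟨k, rfl⟩, hn k⟩))
      exact ⟨z, hz⟩
    · obtain ⟨A, hA, hA'⟩ := h3 _ hf
      refine ⟨δ M (Sum.inr ⟨A, hA⟩), mapClusterPt_iff_frequently.2 fun U hU => ?_⟩
      rw [Nat.frequently_atTop_iff_infinite]
      have := mem_inf_principal.1 (δ_tendsto hM ⟨A, hA⟩ hU)
      refine Set.Infinite.of_image n ((hA'.sdiff (mem_cofinite.1 this)).mono ?_)
      rintro _ ⟨⟨h4, k, rfl⟩, h5⟩
      refine ⟨k, ?_, rfl⟩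
      rw [mem_ofPred_eq, ← hn k]
      exact not_not.1 h5 h4)
  let e := h1.natEmbedding M
  obtain ⟨z, -, hz⟩ := hK.exists_mapClusterPt (f := atTop) (u := fun k => δ M (Sum.inr (e k)))
    (tendsto_principal.2 (Eventually.of_forall fun k => by
      haveI := cofinite_inf_principal_neBot_iff.2 (h2 _ (e k).2)
      exact mem_closure_of_tendsto (δ_tendsto hM (e k)) (Eventually.of_forall fun n => ⟨n, rfl⟩)))
  have key : ∀ x c, (∀ᶠ k in atTop, (δ M (Sum.inr (e k))).1 x = c) → z.1 x = c := fun x c hc => by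
    have h1 := hz.continuousAt_comp ((continuous_apply x).comp continuous_subtype_val).continuousAt
    exact eq_of_nhds_neBot (h1.clusterPt.mono
      (tendsto_const_nhds.congr' (hc.mono fun a h => h.symm)))
  have e1 : z.1 (one M) = 1 := key _ _ (Eventually.of_forall fun _ => rfl)
  have e2 : ∀ p, z.1 (j M p) = 0 := fun p => key _ _ (by
    have := e.injective.tendsto_cofinite.eventually p.1.support.eventually_cofinite_notMem
    rw [Nat.cofinite_eq_atTop] at this
    filter_upwards [this] with k hk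
    simp [δ, j, ι, Finsupp.notMem_support_iff.1 hk])
  have e3 : one M ∈ closure (range (j M)) := by
    rw [IsInducing.subtypeVal.closure_eq_preimage_closure_image, ← range_comp]
    exact dense M _
  have := closure_minimal (range_subset_iff.2 e2) (isClosed_eq z.2 continuous_const) e3
  exact one_ne_zero (e1.symm.trans this)

end Pool.Agent.H.MP_ba0d78_gt
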